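import Pool.Agent.K3h14.FD.Stm

/-!
# Project FD (helper14), brick SPD: far apart degrees of `D ⊗ T` are separated
-/

set_option autoImplicit false
set_option linter.unusedSectionVars false
set_option backward.isDefEq.respectTransparency false
set_option backward.defeqAttrib.useBackward true

open CategoryTheory Limits MonoidalCategory
open Pool.Agent.Y112.SR Pool.Agent.Y112.KD Pool.Agent.Y112.SC Pool.Agent.K3h63.CC

namespace Pool.Agent.K3h33.FD

open Pool.Agent.K3h14.FD

universe v u w

section

variable {C : Type u} [Category.{v} C] [Preadditive C] [Linear ℚ C] [MonoidalCategory C]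
    [MonoidalPreadditive C] [MonoidalLinear ℚ C] [SymmetricCategory C] [RightRigidCategory C]
    {K : Type w} [Field K] [CharZero K] {R : SuperRealisation C K} (G : Grading R)

lemma bx_pr_ne (D T : C) {i j m : ℤ} (h : m ≠ i + j) :
    bx R (G.pr D i) (G.pr T j) ≫ G.pr (D ⊗ T) m = 0 := by
  rw [← G.bx_pr, Category.assoc, G.orth _ _ _ (Ne.symm h), comp_zero]

open Classical in
lemma pr_sum (T : C) (s : Finset ℤ) (j : ℤ) :
    G.pr T j ≫ (∑ c ∈ s, G.pr T c) = if j ∈ s then G.pr T j else 0 := by
  rw [Preadditive.comp_sum]
  split_ifs with h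
  · rw [Finset.sum_eq_single j]
    · exact G.idem T j
    · intro c _ hc
      exact G.orth T j c (Ne.symm hc)
    · intro h'
      exact absurd h h'
  · refine Finset.sum_eq_zero fun c hc => G.orth T j c ?_
    rintro rfl
    exact h hc

end

theorem t_SPD : S_SPD.{v, u, w} := by
  classical
  intro C _ _ _ _ _ _ _ _ K _ _ R G D T N hN hT k l hkl
  set s := (G.supp T).filter fun c => G.pr D (k - c) ≠ 0 with hs
  set p := ∑ c ∈ s, G.pr T c with hp
  refine ⟨bx R (𝟙 _) p, Algebraic.bx (Algebraic.one D) (Algebraic.sum s fun c _ => hT c), ?_, ?_⟩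
  · apply G.ext_bx
    intro i j
    by_cases hk : k = i + j
    · subst hk
      rw [← Category.assoc, G.bx_pr, bx_comp, Category.comp_id]
      by_cases hi : G.pr D i = 0
      · rw [hi, bx_zero_left, bx_zero_left]
      · by_cases hj : j ∈ G.supp T
        · have hjs : j ∈ s := by
            rw [hs, Finset.mem_filter]
            exact ⟨hj, by rwa [show i + j - j = i by ring]⟩
          rw [hp, pr_sum, if_pos hjs]
        · rw [G.pr_zero hj, zero_comp]
    · rw [← Category.assoc, bx_pr_ne G D T hk, zero_comp]
  · apply G.ext_bx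
    intro i j
    rw [comp_zero]
    by_cases hl : l = i + j
    · subst hl
      rw [← Category.assoc, G.bx_pr, bx_comp, Category.comp_id]
      by_cases hi : G.pr D i = 0
      · rw [hi, bx_zero_left]
      · have hjs : j ∉ s := by
          rw [hs, Finset.mem_filter]
          rintro ⟨-, h⟩
          have := hN _ _ h hi
          linarith
        rw [hp, pr_sum, if_neg hjs, bx_zero_right]
    · rw [← Category.assoc, bx_pr_ne G D T hl, zero_comp]

end Pool.Agent.K3h33.FD
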